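import Pool.Agent.Q321.HL.Gen

/-!
The uniform height bound for integral points on the hyperelliptic curves with integral branch
points, all curves of one degree simultaneously and without any bound on the size of the points:
integral points whose ordinate has few exponents (for example few prime factors) and a small
radical.
-/

set_option autoImplicit false

namespace Pool.Agent.Results.MP_d88658_nt.FewExponentOrdinates

open Finset Polynomial

/-- the polynomial `c ∏ (X - e i)` -/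
noncomputable def poly {d : ℕ} (c : ℤ) (e : Fin d → ℤ) : ℤ[X] := C c * ∏ i, (X - C (e i))

/-- the largest absolute value of a coefficient of the polynomial -/
noncomputable def maxCoeff (f : ℤ[X]) : ℕ := f.support.sup fun k => (f.coeff k).natAbs

/-- the number with the same prime divisors as the discriminant of `c ∏ (X - e i)` -/
def disc {d : ℕ} (c : ℤ) (e : Fin d → ℤ) : ℤ := c * ∏ i, ∏ j ∈ univ.erase i, (e i - e j)

/-- the product of the primes dividing `y` -/
def radical (y : ℤ) : ℕ := ∏ p ∈ y.natAbs.primeFactors, p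

/-- The number of different exponents, in `y`, of the primes not dividing `D`, plus the number of the
primes dividing both `y` and `D`. It is at most the number of primes dividing `y`. -/
def complexity (D y : ℤ) : ℕ :=
  ((y.natAbs.primeFactors.filter (fun p : ℕ => ¬ (p : ℤ) ∣ D)).image
    (fun p => y.natAbs.factorization p)).card +
  (y.natAbs.primeFactors.filter (fun p : ℕ => (p : ℤ) ∣ D)).card

/-- `(x, y)` is an integral point of the hyperelliptic curve `y ^ 2 = f x`, where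
`f = c ∏ (X - e i)` is a polynomial of degree `d` with distinct integral roots and with coefficients
at most `M ≤ X`, the complexity of `y` is at most `n`, its radical at most `M ^ E`, and
`|x| > L M ^ L`. -/
structure Exceptional (d n : ℕ) (E L X : ℝ) (c : ℤ) (e : Fin d → ℤ) (x y : ℤ) : Prop where
  lead_ne : c ≠ 0
  roots_injective : Function.Injective e
  eqn : y ^ 2 = (poly c e).eval x
  height_le : (maxCoeff (poly c e) : ℝ) ≤ X
  complexity_le : complexity (disc c e) y ≤ n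
  radical_le : (radical y : ℝ) ≤ (maxCoeff (poly c e) : ℝ) ^ E
  large : L * (maxCoeff (poly c e) : ℝ) ^ L < |(x : ℝ)|

/-- `(X, Y) ↦ (l X + m, v Y)` is an isomorphism over `ℚ` of the curve `y ^ 2 = c' ∏ (x - e' i)` onto
the curve `y ^ 2 = c ∏ (x - e i)` which maps the point `(x', y')` to `(x, y)`. -/
def Iso {d : ℕ} (l m v : ℚ) (c : ℤ) (e : Fin d → ℤ) (x y : ℤ) (c' : ℤ) (e' : Fin d → ℤ)
    (x' y' : ℤ) : Prop :=
  (∀ i, (e i : ℚ) = l * e' i + m) ∧ (c : ℚ) * l ^ d = c' * v ^ 2 ∧ (x : ℚ) = l * x' + m ∧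
    (y : ℚ) = v * y'

lemma coeff_le (f : ℤ[X]) (k : ℕ) : |f.coeff k| ≤ (maxCoeff f : ℤ) := by
  rw [Int.abs_eq_natAbs]
  by_cases h : f.coeff k = 0
  · rw [h]
    simp
  · have h1 : (f.coeff k).natAbs ≤ maxCoeff f :=
      Finset.le_sup (f := fun k => (f.coeff k).natAbs) (mem_support_iff.2 h)
    exact_mod_cast h1

lemma eval_poly {d : ℕ} (c : ℤ) (e : Fin d → ℤ) (x : ℤ) :
    (poly c e).eval x = c * ∏ i, (x - e i) := by
  unfold poly
  rw [eval_mul, eval_C, eval_prod]
  simp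

lemma lead_poly {d : ℕ} (c : ℤ) (e : Fin d → ℤ) : (poly c e).leadingCoeff = c := by
  unfold poly
  rw [leadingCoeff_mul, leadingCoeff_C, leadingCoeff_prod,
    prod_eq_one fun i _ => leadingCoeff_X_sub_C (e i), mul_one]

lemma root_le {d : ℕ} {c : ℤ} (hc : c ≠ 0) (e : Fin d → ℤ) (i : Fin d) :
    |e i| ≤ (maxCoeff (poly c e) : ℤ) := by
  obtain ⟨f, hf⟩ : ∃ f, f = poly c e := ⟨_, rfl⟩
  rw [← hf]
  have hlead : f.leadingCoeff = c := by rw [hf]; exact lead_poly c e
  have hf0 : f ≠ 0 := by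
    intro h0
    rw [h0, leadingCoeff_zero] at hlead
    exact hc hlead.symm
  have hroot : f.eval (e i) = 0 := by
    rw [hf, eval_poly, prod_eq_zero (mem_univ i) (sub_self _), mul_zero]
  by_contra hcon
  push Not at hcon
  obtain ⟨M, hM⟩ : ∃ M : ℤ, M = maxCoeff f := ⟨_, rfl⟩
  rw [← hM] at hcon
  have hM0 : 0 ≤ M := by rw [hM]; exact Int.natCast_nonneg _
  obtain ⟨a, ha⟩ : ∃ a, a = |e i| := ⟨_, rfl⟩
  rw [← ha] at hcon
  -- `|lead| a ^ n ≤ M (1 + a + ... + a ^ (n - 1))`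
  have h1 : f.eval (e i) = f.coeff f.natDegree * e i ^ f.natDegree +
      ∑ k ∈ range f.natDegree, f.coeff k * e i ^ k := by
    rw [eval_eq_sum_range, sum_range_succ]
    ring
  have h2 : |f.coeff f.natDegree * e i ^ f.natDegree| ≤ ∑ k ∈ range f.natDegree, M * a ^ k := by
    have h3 : f.coeff f.natDegree * e i ^ f.natDegree =
        -∑ k ∈ range f.natDegree, f.coeff k * e i ^ k := by
      rw [hroot] at h1
      linarith
    rw [h3, abs_neg]
    refine (abs_sum_le_sum_abs _ _).trans (sum_le_sum fun k _ => ?_)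
    rw [abs_mul, abs_pow, ← ha]
    refine mul_le_mul_of_nonneg_right ?_ (by rw [ha]; positivity)
    rw [hM]
    exact coeff_le f k
  have h4 : a ^ f.natDegree ≤ |f.coeff f.natDegree * e i ^ f.natDegree| := by
    rw [abs_mul, abs_pow, ← ha]
    have h5 : 1 ≤ |f.coeff f.natDegree| := Int.one_le_abs (by
      show f.leadingCoeff ≠ 0
      rw [hlead]
      exact hc)
    have h6 : 0 ≤ a ^ f.natDegree := by rw [ha]; positivity
    nlinarith
  have h7 : (∑ k ∈ range f.natDegree, a ^ k) * (a - 1) = a ^ f.natDegree - 1 :=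
    geom_sum_mul a f.natDegree
  have h8 : 0 ≤ ∑ k ∈ range f.natDegree, a ^ k :=
    sum_nonneg fun k _ => by rw [ha]; positivity
  rw [← mul_sum] at h2
  have h9 : M ≤ a - 1 := by linarith
  have h10 := mul_le_mul_of_nonneg_right h9 h8
  linarith

lemma lead_le {d : ℕ} {c : ℤ} (hc : c ≠ 0) (e : Fin d → ℤ) : 1 ≤ maxCoeff (poly c e) := by
  have h1 := coeff_le (poly c e) (poly c e).natDegree
  have h2 : (poly c e).coeff (poly c e).natDegree = c := lead_poly c e
  rw [h2] at h1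
  have h3 := Int.one_le_abs hc
  have h4 : (1 : ℤ) ≤ (maxCoeff (poly c e) : ℤ) := h3.trans h1
  exact_mod_cast h4

/-- For all `d ≥ 3`, `n`, `E` and `ε > 0` there are `L` and `C` such that for every `X ≥ 1` the
exceptional points form at most `C X ^ ε` isomorphism classes; there is no bound on the size of the
points. -/
theorem result (d n : ℕ) (hd : 3 ≤ d) (E ε : ℝ) (hε : 0 < ε) : ∃ L C : ℝ, 0 < L ∧ 0 < C ∧
    ∀ X : ℝ, 1 ≤ X → ∃ S : Finset (ℤ × (Fin d → ℤ) × ℤ × ℤ), (S.card : ℝ) ≤ C * X ^ ε ∧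
      (∀ s ∈ S, Exceptional d n E L X s.1 s.2.1 s.2.2.1 s.2.2.2) ∧
      ∀ (c : ℤ) (e : Fin d → ℤ) (x y : ℤ), Exceptional d n E L X c e x y →
        ∃ s ∈ S, ∃ l m v : ℚ, l ≠ 0 ∧ v ≠ 0 ∧ Iso l m v c e x y s.1 s.2.1 s.2.2.1 s.2.2.2 := by
  classical
  have hd0 : (0 : ℝ) < d := by
    have : 0 < d := by omega
    exact_mod_cast this
  obtain ⟨i0, hi0⟩ : ∃ i0 : Fin d, i0 = ⟨0, by omega⟩ := ⟨_, rfl⟩
  obtain ⟨i1, hi1⟩ : ∃ i1 : Fin d, i1 = ⟨1, by omega⟩ := ⟨_, rfl⟩
  have hi01 : i1 ≠ i0 := by rw [hi0, hi1]; simp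
  obtain ⟨R, hR⟩ : ∃ R : ℕ, R = ⌈E⌉₊ + 1 := ⟨_, rfl⟩
  have hR1 : 1 ≤ R := by omega
  have hER : E ≤ (R : ℝ) := by
    have := Nat.le_ceil E
    rw [hR]
    push_cast
    linarith
  obtain ⟨K₀, C₀, hK₀, hC₀, hcore⟩ := Pool.Agent.Q130.SZ.np_core (n + 1) (ε / d) 4 (1 / 8) R
    (by positivity) (by norm_num) (by norm_num) hR1
  refine ⟨K₀ + 6, (2 * C₀ + 1) ^ d, by linarith, by positivity, fun X hX => ?_⟩
  have hX0 : 0 < X := by linarith
  obtain ⟨T, hT1, hT2⟩ := Pool.Agent.Q321.HL.fin_of_bound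
    (fun q : ℕ × ℕ => ∃ M : ℝ, 1 ≤ M ∧ M ≤ X ∧ Pool.Agent.Q130.SZ.NP (n + 1) ((4 * M) ^ R) q ∧
      1 / 8 * M ^ K₀ ≤ ((q.1 + q.2 : ℕ) : ℝ)) (C₀ * X ^ (ε / d)) (hcore X hX)
  obtain ⟨Rt, hRt⟩ : ∃ Rt : Finset ℚ, Rt = insert 1 (
      T.image (fun q => ((q.1 + q.2 : ℕ) : ℚ) / (q.1 : ℚ)) ∪
      T.image (fun q => (q.1 : ℚ) / ((q.1 + q.2 : ℕ) : ℚ))) := ⟨_, rfl⟩
  have hRtc : (Rt.card : ℝ) ≤ 2 * T.card + 1 := by
    have h1 : Rt.card ≤ T.card + T.card + 1 := by
      rw [hRt]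
      refine (card_insert_le _ _).trans (Nat.succ_le_succ ?_)
      exact (card_union_le _ _).trans (Nat.add_le_add card_image_le card_image_le)
    have h2 : (Rt.card : ℝ) ≤ T.card + T.card + 1 := by exact_mod_cast h1
    linarith
  obtain ⟨L, hL⟩ : ∃ L : ℝ, L = K₀ + 6 := ⟨_, rfl⟩
  rw [← hL]
  let P : (Fin d → ℚ) → ℤ × (Fin d → ℤ) × ℤ × ℤ → Prop := fun ρ s =>
    Exceptional d n E L X s.1 s.2.1 s.2.2.1 s.2.2.2 ∧ s.2.2.2 ≠ 0 ∧
      s.2.2.1 - s.2.1 i0 ≠ 0 ∧ ∀ i, ((s.2.2.1 - s.2.1 i : ℤ) : ℚ) =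
        ρ i * ((s.2.2.1 - s.2.1 i0 : ℤ) : ℚ)
  have hP : ∀ (c : ℤ) (e : Fin d → ℤ) (x y : ℤ), Exceptional d n E L X c e x y →
      ∃ ρ ∈ Fintype.piFinset (fun _ : Fin d => Rt), P ρ (c, e, x, y) := by
    intro c e x y h
    obtain ⟨H, hHd⟩ : ∃ H : ℕ, H = maxCoeff (poly c e) := ⟨_, rfl⟩
    have hH : 1 ≤ H := by rw [hHd]; exact lead_le h.lead_ne e
    have hroot : ∀ i, |e i| ≤ (H : ℤ) := fun i => by rw [hHd]; exact root_le h.lead_ne e i
    have hH1 : (1 : ℝ) ≤ H := by exact_mod_cast hH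
    have hH0 : (0 : ℝ) < H := by linarith
    obtain ⟨t, ht⟩ : ∃ t : ℝ, t = (H : ℝ) ^ (K₀ + 1) := ⟨_, rfl⟩
    have ht1 : (1 : ℝ) ≤ t := by
      rw [ht]
      exact Real.one_le_rpow hH1 (by linarith)
    have htH : (H : ℝ) ≤ t := by
      rw [ht]
      calc (H : ℝ) = (H : ℝ) ^ (1 : ℝ) := (Real.rpow_one _).symm
        _ ≤ _ := Real.rpow_le_rpow_of_exponent_le hH1 (by linarith)
    have hlarge := h.large
    rw [← hHd] at hlarge
    have hx5 : 5 * t < |(x : ℝ)| := by
      refine lt_of_le_of_lt ?_ hlarge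
      have h1 : t ≤ (H : ℝ) ^ L := by
        rw [ht]
        apply Real.rpow_le_rpow_of_exponent_le hH1
        rw [hL]
        linarith
      have h2 : (5 : ℝ) ≤ L := by rw [hL]; linarith
      calc 5 * t ≤ L * t := mul_le_mul_of_nonneg_right h2 (by linarith)
        _ ≤ L * (H : ℝ) ^ L := mul_le_mul_of_nonneg_left h1 (by linarith)
    have hx : 5 * (H : ℤ) < |x| := by
      have h1 : 5 * (H : ℝ) < |(x : ℝ)| := by linarith
      exact_mod_cast h1
    have heqn : y ^ 2 = c * ∏ i, (x - e i) := by rw [h.eqn, eval_poly]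
    have hsgn : (∀ i, 0 < x - e i) ∨ ∀ i, x - e i < 0 := by
      have hH' : (0 : ℤ) ≤ H := Int.natCast_nonneg H
      rcases le_total 0 x with h0 | h0
      · left
        intro i
        have a1 := abs_le.1 (hroot i)
        rw [abs_of_nonneg h0] at hx
        linarith [a1.2]
      · right
        intro i
        have a1 := abs_le.1 (hroot i)
        rw [abs_of_nonpos h0] at hx
        linarith [a1.1]
    have hne : ∀ i, x - e i ≠ 0 := by
      intro i
      rcases hsgn with h0 | h0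
      · exact (h0 i).ne'
      · exact (h0 i).ne
    have hy0 : y ≠ 0 := by
      intro h0
      have h1 : c * ∏ i, (x - e i) = 0 := by
        rw [← heqn, h0]
        ring
      exact mul_ne_zero h.lead_ne (prod_ne_zero_iff.2 fun i _ => hne i) h1
    have hrad : (Pool.Agent.Q321.HL.rd y : ℝ) ≤ (4 * (H : ℝ)) ^ R := by
      have h1 := h.radical_le
      rw [← hHd] at h1
      refine (show (Pool.Agent.Q321.HL.rd y : ℝ) ≤ (H : ℝ) ^ E from h1).trans ?_
      calc (H : ℝ) ^ E ≤ (H : ℝ) ^ (R : ℝ) := Real.rpow_le_rpow_of_exponent_le hH1 hER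
        _ = (H : ℝ) ^ R := Real.rpow_natCast _ _
        _ ≤ (4 * (H : ℝ)) ^ R := pow_le_pow_left₀ hH0.le (by linarith) R
    -- common primes
    have hcd : ∀ (p : ℕ), p.Prime → (p : ℤ) ∣ c → (p : ℤ) ∣ disc c e := by
      intro p _ h1
      exact h1.mul_right _
    have hed : ∀ (p : ℕ) (i j : Fin d), i ≠ j → (p : ℤ) ∣ x - e i → (p : ℤ) ∣ x - e j →
        (p : ℤ) ∣ disc c e := by
      intro p i j hij h1 h2
      have h3 : (p : ℤ) ∣ e i - e j := by
        have h4 := dvd_sub h2 h1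
        have e1 : x - e j - (x - e i) = e i - e j := by ring
        rwa [e1] at h4
      unfold disc
      refine Dvd.dvd.mul_left ?_ _
      refine h3.trans (dvd_trans ?_ (dvd_prod_of_mem _ (mem_univ i)))
      exact dvd_prod_of_mem (fun j => e i - e j) (mem_erase.2 ⟨hij.symm, mem_univ j⟩)
    have hratio : ∀ i, ∃ ρ ∈ Rt, ((x - e i : ℤ) : ℚ) = ρ * ((x - e i0 : ℤ) : ℚ) := by
      intro i
      by_cases hi : i = i0
      · refine ⟨1, by rw [hRt]; exact mem_insert_self _ _, ?_⟩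
        rw [hi, one_mul]
      obtain ⟨z, hz⟩ : ∃ z, z = c * ∏ j ∈ (univ.erase i0).erase i, (x - e j) := ⟨_, rfl⟩
      have hprod : (x - e i0) * (x - e i) * z = y ^ 2 := by
        rw [heqn, hz, ← mul_prod_erase univ (fun j => x - e j) (mem_univ i0),
          ← mul_prod_erase (univ.erase i0) (fun j => x - e j) (mem_erase.2 ⟨hi, mem_univ i⟩)]
        ring
      have hzD : ∀ (p : ℕ), p.Prime → ∀ k : Fin d, (k = i0 ∨ k = i) → (p : ℤ) ∣ x - e k →
          (p : ℤ) ∣ z → (p : ℤ) ∣ disc c e := by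
        intro p hp k hk h1 h2
        rw [hz] at h2
        have hpp := Nat.prime_iff_prime_int.1 hp
        rcases hpp.dvd_or_dvd h2 with h3 | h3
        · exact hcd p hp h3
        · obtain ⟨j, hj, hj2⟩ := hpp.exists_mem_finset_dvd h3
          refine hed p k j ?_ h1 hj2
          rw [mem_erase, mem_erase] at hj
          rcases hk with rfl | rfl
          · exact fun h9 => hj.2.1 h9.symm
          · exact fun h9 => hj.1 h9.symm
      obtain ⟨q, hq1, hq2, hq3⟩ := Pool.Agent.Q321.HL.pair_gen (H := H) hy0 hprod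
        (by
          rcases hsgn with h0 | h0
          · exact Or.inl ⟨h0 i0, h0 i⟩
          · exact Or.inr ⟨h0 i0, h0 i⟩)
        (by
          intro h9
          exact hi (h.roots_injective (by linarith)).symm.symm)
        (by
          have e1 : x - e i0 - (x - e i) = e i - e i0 := by ring
          rw [e1]
          have a1 := hroot i
          have a2 := hroot i0
          have a3 := abs_sub (e i) (e i0)
          have a4 : (0 : ℤ) ≤ H := Int.natCast_nonneg H
          linarith)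
        (fun p hp h1 h2 => hed p i0 i (fun h9 => hi h9.symm) h1 h2)
        (fun p hp h1 h2 => hzD p hp i0 (Or.inl rfl) h1 h2)
        (fun p hp h1 h2 => hzD p hp i (Or.inr rfl) h1 h2)
        (show Pool.Agent.Q321.HL.cp (disc c e) y ≤ n from h.complexity_le) hR1 hH hrad
      have hqT : q ∈ T := by
        refine hT1 q ⟨H, hH1, ?_, hq1, ?_⟩
        · have := h.height_le
          rwa [← hHd] at this
        · have h3 : t = (H : ℝ) ^ K₀ * H := by
            rw [ht, Real.rpow_add hH0, Real.rpow_one]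
          have h4 : |(x : ℝ)| ≤ 2 * |((x - e i0 : ℤ) : ℝ)| := by
            have h5 : |x| ≤ 2 * |x - e i0| := by
              have h6 : |x| ≤ |x - e i0| + |e i0| := by
                have := abs_add_le (x - e i0) (e i0)
                rwa [sub_add_cancel] at this
              have h7 := hroot i0
              linarith
            exact_mod_cast h5
          have h5 : (H : ℝ) ^ K₀ * H < 8 * (H : ℝ) * ((q.1 + q.2 : ℕ) : ℝ) := by
            rw [← h3]
            linarith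
          have h6 : (H : ℝ) * ((H : ℝ) ^ K₀) < H * (8 * ((q.1 + q.2 : ℕ) : ℝ)) := by linarith
          have h7 := lt_of_mul_lt_mul_left h6 hH0.le
          linarith
      rcases hq3 with h1 | h1
      · exact ⟨_, by rw [hRt]; exact mem_insert_of_mem (mem_union_left _ (mem_image_of_mem _ hqT)), h1⟩
      · exact ⟨_, by rw [hRt]; exact mem_insert_of_mem (mem_union_right _ (mem_image_of_mem _ hqT)), h1⟩
    choose ρ hρ1 hρ2 using hratio
    exact ⟨ρ, Fintype.mem_piFinset.2 hρ1, h, hy0, hne i0, hρ2⟩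
  let rep : (Fin d → ℚ) → ℤ × (Fin d → ℤ) × ℤ × ℤ := fun ρ =>
    if h : ∃ s, P ρ s then h.choose else (0, 0, 0, 0)
  have hrep : ∀ ρ s, P ρ s → P ρ (rep ρ) := by
    intro ρ s hs
    have hex : ∃ s, P ρ s := ⟨s, hs⟩
    show P ρ (if h : ∃ s, P ρ s then h.choose else (0, 0, 0, 0))
    rw [dif_pos hex]
    exact hex.choose_spec
  refine ⟨((Fintype.piFinset (fun _ : Fin d => Rt)).filter (fun ρ => ∃ s, P ρ s)).image rep,
    ?_, ?_, ?_⟩
  · have h1 : (((Fintype.piFinset (fun _ : Fin d => Rt)).filter (fun ρ => ∃ s, P ρ s)).image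
        rep).card ≤ Rt.card ^ d := by
      refine card_image_le.trans ((card_filter_le _ _).trans ?_)
      rw [Fintype.card_piFinset]
      simp
    have h2 : ((((Fintype.piFinset (fun _ : Fin d => Rt)).filter (fun ρ => ∃ s, P ρ s)).image
        rep).card : ℝ) ≤ (Rt.card : ℝ) ^ d := by exact_mod_cast h1
    have h6 : 1 ≤ X ^ (ε / d) := Real.one_le_rpow hX (by positivity)
    have h3 : (Rt.card : ℝ) ≤ (2 * C₀ + 1) * X ^ (ε / d) := by nlinarith
    have h4 : (0 : ℝ) ≤ Rt.card := Nat.cast_nonneg _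
    have h5 : (X ^ (ε / d)) ^ d = X ^ ε := by
      rw [← Real.rpow_natCast, ← Real.rpow_mul hX0.le]
      congr 1
      field_simp
    calc ((((Fintype.piFinset (fun _ : Fin d => Rt)).filter (fun ρ => ∃ s, P ρ s)).image
        rep).card : ℝ) ≤ (Rt.card : ℝ) ^ d := h2
      _ ≤ ((2 * C₀ + 1) * X ^ (ε / d)) ^ d := pow_le_pow_left₀ h4 h3 d
      _ = _ := by rw [mul_pow, h5]
  · intro s hs
    obtain ⟨ρ, hρ, rfl⟩ := mem_image.1 hs
    obtain ⟨s', hs'⟩ := (mem_filter.1 hρ).2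
    exact (hrep ρ s' hs').1
  · intro c e x y h
    obtain ⟨ρ, hρ, hPρ⟩ := hP c e x y h
    have hPr := hrep ρ _ hPρ
    refine ⟨rep ρ, mem_image_of_mem _ (mem_filter.2 ⟨hρ, _, hPρ⟩), ?_⟩
    obtain ⟨s', hs'⟩ : ∃ s', s' = rep ρ := ⟨_, rfl⟩
    rw [← hs'] at hPr ⊢
    clear hs'
    obtain ⟨c', e', x', y'⟩ := s'
    obtain ⟨h1, hy0, he, hr⟩ := hPρ
    obtain ⟨h1', hy0', he', hr'⟩ := hPr
    simp only at h1 hy0 he hr h1' hy0' he' hr' ⊢
    obtain ⟨lam, hlam⟩ : ∃ lam : ℚ, lam = ((x - e i0 : ℤ) : ℚ) / ((x' - e' i0 : ℤ) : ℚ) := ⟨_, rfl⟩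
    have he0 : ((x - e i0 : ℤ) : ℚ) ≠ 0 := by exact_mod_cast he
    have he0' : ((x' - e' i0 : ℤ) : ℚ) ≠ 0 := by exact_mod_cast he'
    have hl0 : lam ≠ 0 := by rw [hlam]; exact div_ne_zero he0 he0'
    have hE : ∀ i, ((x - e i : ℤ) : ℚ) = lam * ((x' - e' i : ℤ) : ℚ) := by
      intro i
      rw [hr i, hr' i, hlam]
      field_simp
    have hyq : (y : ℚ) ≠ 0 := by exact_mod_cast hy0
    have hyq' : (y' : ℚ) ≠ 0 := by exact_mod_cast hy0'
    have heq : (y : ℚ) ^ 2 = c * ∏ i, ((x - e i : ℤ) : ℚ) := by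
      have : y ^ 2 = c * ∏ i, (x - e i) := by rw [h1.eqn, eval_poly]
      rw [← Int.cast_prod]
      exact_mod_cast this
    have heq' : (y' : ℚ) ^ 2 = c' * ∏ i, ((x' - e' i : ℤ) : ℚ) := by
      have : y' ^ 2 = c' * ∏ i, (x' - e' i) := by rw [h1'.eqn, eval_poly]
      rw [← Int.cast_prod]
      exact_mod_cast this
    have heq2 : (y : ℚ) ^ 2 = c * lam ^ d * ∏ i, ((x' - e' i : ℤ) : ℚ) := by
      rw [heq, prod_congr rfl fun i _ => hE i, prod_mul_distrib, prod_const, card_univ,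
        Fintype.card_fin]
      ring
    refine ⟨lam, (x : ℚ) - lam * x', (y : ℚ) / y', hl0, div_ne_zero hyq hyq', ?_, ?_, ?_, ?_⟩
    · intro i
      have h2 := hE i
      push_cast at h2
      linarith
    · have hpne : ∏ i, ((x' - e' i : ℤ) : ℚ) ≠ 0 := by
        intro h0
        rw [h0, mul_zero] at heq'
        exact pow_ne_zero 2 hyq' heq'
      have h3 : (c : ℚ) * lam ^ d * (y' : ℚ) ^ 2 = c' * (y : ℚ) ^ 2 := by
        rw [heq2, heq']
        ring
      rw [div_pow]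
      field_simp
      exact h3
    · ring
    · field_simp

end Pool.Agent.Results.MP_d88658_nt.FewExponentOrdinates
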