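import Mathlib
import Pool.Agent.Y902.GN.Hl3
import Pool.Agent.Y902.GN.Sc2

/-!
# Integral points of hyperelliptic curves whose coordinates are generated by few integers

The conjecture of Hall-Lang and Vojta bounds `|x|` by a fixed power of the largest coefficient of
`f` for the integral points `(x, y)` of all curves `y ^ 2 = f x`, `deg f = d ≥ 3`.

We consider ALL polynomials `f ∈ ℤ[x]` of degree `d` without repeated roots and with coefficients
of absolute value at most `X ^ E` simultaneously, and all integral points of the curves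
`y ^ 2 = f x` whose coordinates are, up to sign, products of powers of the same `N` (unspecified)
integers between `1` and `X`. The pairs (curve, point) which arise from each other by a scaling
`x ↦ r x`, `y ↦ s y` with rational numbers `r`, `s` form one class. Then all these points satisfy
`|x| ≤ X ^ K` or `|x| > exp (X ^ δ)`, except for the points in at most `X ^ ε` classes
(`K` and `δ > 0` depend on `d`, `N`, `E`, `ε` only). This is part (1).

Part (2): the same holds, with the same `K` and `δ`, for the curves `g y ^ m = f x` for all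
exponents `m ≥ 1` and all products `g` of powers of the generators simultaneously, in the following
sense: the values `w = f x` of all the `f`, such that `x` and `w` are up to sign products of powers
of `N` integers between `1` and `X`.
-/

set_option autoImplicit false

namespace Pool.Agent.Results.MP_d88658_nt.FewGeneratorPoints

open Pool.Agent.Y902.GN Polynomial

/-- `x` and `w` are, up to sign, products of powers of the same `N` integers between `1` and
`X`. -/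
def Generated (N X : ℕ) (x w : ℤ) : Prop :=
  ∃ (η θ : ℤ) (b : Fin N → ℕ) (e f : Fin N → ℕ), |η| = 1 ∧ |θ| = 1 ∧
    (∀ j, 1 ≤ b j ∧ b j ≤ X) ∧ x = η * ∏ j, (b j : ℤ) ^ e j ∧ w = θ * ∏ j, (b j : ℤ) ^ f j

/-- `f` is an integral polynomial of degree `d` without repeated roots, with coefficients of
absolute value at most `H`. -/
structure Poly (d : ℕ) (H : ℤ) (f : ℤ[X]) : Prop where
  deg : f.natDegree = d
  sep : (f.map (Int.castRingHom ℚ)).Separable
  coeff_le : ∀ i, |f.coeff i| ≤ H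

/-- `x` is larger than `X ^ K`, but at most `exp (X ^ δ)`. -/
def Window (K : ℕ) (δ : ℝ) (X : ℕ) (x : ℤ) : Prop :=
  (X : ℤ) ^ K < |x| ∧ ((|x| : ℤ) : ℝ) ≤ Real.exp ((X : ℝ) ^ δ)

/-- `(x, y)` is an integral point of the hyperelliptic curve `y ^ 2 = f x`, where the coefficients
of `f` are at most `X ^ E`, with generated coordinates, such that `X ^ K < |x| ≤ exp (X ^ δ)`. -/
structure LargePoint (d N E K : ℕ) (δ : ℝ) (X : ℕ) (f : ℤ[X]) (x y : ℤ) : Prop where
  poly : Poly d ((X : ℤ) ^ E) f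
  eqn : y ^ 2 = f.eval x
  gen : Generated N X x y
  window : Window K δ X x

/-- `w = f x`, where the coefficients of `f` are at most `X ^ E`, both `x` and `w` are generated,
and `X ^ K < |x| ≤ exp (X ^ δ)`. -/
structure LargeValue (d N E K : ℕ) (δ : ℝ) (X : ℕ) (f : ℤ[X]) (x w : ℤ) : Prop where
  poly : Poly d ((X : ℤ) ^ E) f
  eqn : w = f.eval x
  gen : Generated N X x w
  window : Window K δ X x

/-- The substitution `x ↦ r x`, `w ↦ k w` maps the second graph and point to the first ones: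
`f (r T) = k f' T`, `x = r x'`, `w = k w'`. -/
def Scales (r k : ℚ) (f : ℤ[X]) (x w : ℤ) (f' : ℤ[X]) (x' w' : ℤ) : Prop :=
  r ≠ 0 ∧ k ≠ 0 ∧ (x : ℚ) = r * x' ∧ (w : ℚ) = k * w' ∧
    (f.map (Int.castRingHom ℚ)).comp (C r * Polynomial.X) = C k * f'.map (Int.castRingHom ℚ)

/-- The isomorphism `x ↦ r x`, `y ↦ s y` maps the second hyperelliptic curve and point to the
first ones: `f (r T) = s ^ 2 f' T`, `x = r x'`, `y = s y'`. -/
def ScalesCurve (r s : ℚ) (f : ℤ[X]) (x y : ℤ) (f' : ℤ[X]) (x' y' : ℤ) : Prop :=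
  r ≠ 0 ∧ s ≠ 0 ∧ (x : ℚ) = r * x' ∧ (y : ℚ) = s * y' ∧
    (f.map (Int.castRingHom ℚ)).comp (C r * Polynomial.X) =
      C (s ^ 2) * f'.map (Int.castRingHom ℚ)

theorem Generated.ne {N X : ℕ} {x w : ℤ} (h : Generated N X x w) : x ≠ 0 ∧ w ≠ 0 := by
  obtain ⟨η, θ, b, e, f, hη, hθ, hb, hx, hy⟩ := h
  have hb0 : ∀ j, (b j : ℤ) ≠ 0 := fun j => by
    have := (hb j).1
    exact_mod_cast (by omega : b j ≠ 0)
  constructor
  · rw [hx]
    refine mul_ne_zero ?_ (Finset.prod_ne_zero_iff.2 fun j _ => pow_ne_zero _ (hb0 j))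
    rintro rfl
    rw [abs_zero] at hη
    exact zero_ne_one hη
  · rw [hy]
    refine mul_ne_zero ?_ (Finset.prod_ne_zero_iff.2 fun j _ => pow_ne_zero _ (hb0 j))
    rintro rfl
    rw [abs_zero] at hθ
    exact zero_ne_one hθ

theorem Generated.sq {N X : ℕ} {x y : ℤ} (h : Generated N X x y) : Generated N X x (y ^ 2) := by
  obtain ⟨η, θ, b, e, f, hη, hθ, hb, hx, hy⟩ := h
  refine ⟨η, θ ^ 2, b, e, fun j => f j * 2, hη, by rw [abs_pow, hθ, one_pow], hb, hx, ?_⟩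
  rw [hy, mul_pow, ← Finset.prod_pow]
  congr 1
  exact Finset.prod_congr rfl fun j _ => (pow_mul _ _ _).symm

/-- the coefficients -/
noncomputable def cf (d : ℕ) (f : ℤ[X]) : Fin (d + 1) → ℤ := fun i => f.coeff i

theorem Poly.two {d : ℕ} {H : ℤ} {f : ℤ[X]} (h : Poly d H f) (hd : 2 ≤ d) :
    ∃ i j : Fin (d + 1), (i : ℕ) < j ∧ cf d f i ≠ 0 ∧ cf d f j ≠ 0 := by
  have hf0 : f ≠ 0 := by
    rintro rfl
    have := h.deg
    rw [natDegree_zero] at this
    omega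
  have hlead : f.coeff d ≠ 0 := by
    have h1 := h.deg
    rw [← h1]
    exact leadingCoeff_ne_zero.2 hf0
  by_contra hcon
  push Not at hcon
  have hz : ∀ i < d, f.coeff i = 0 := by
    intro i hi
    by_contra h0
    exact hlead (hcon ⟨i, by omega⟩ ⟨d, by omega⟩ hi h0)
  have hfX : f = C (f.coeff d) * Polynomial.X ^ d := by
    ext i
    rw [coeff_C_mul, coeff_X_pow]
    rcases lt_trichotomy i d with hi | hi | hi
    · rw [hz i hi, if_neg (by omega), mul_zero]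
    · rw [hi, if_pos rfl, mul_one]
    · rw [if_neg (by omega), mul_zero]
      exact coeff_eq_zero_of_natDegree_lt (by rw [h.deg]; exact hi)
  have hsq := h.sep.squarefree
  have hdvd : Polynomial.X * Polynomial.X ∣ f.map (Int.castRingHom ℚ) := by
    rw [hfX, Polynomial.map_mul, Polynomial.map_pow, Polynomial.map_X, ← pow_two]
    exact Dvd.dvd.mul_left (pow_dvd_pow _ hd) _
  exact Polynomial.not_isUnit_X (hsq _ hdvd)

theorem LargeValue.hlPt {d N E K : ℕ} {δ : ℝ} {X : ℕ} {f : ℤ[X]} {x w : ℤ} (hd : 2 ≤ d)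
    (h : LargeValue d N E K δ X f x w) : HlPt d N E K δ X (cf d f) x w where
  c1 i := h.poly.coeff_le i
  nc := h.poly.two hd
  val := by
    rw [h.eqn, eval_eq_sum_range' (show f.natDegree < d + 1 by rw [h.poly.deg]; omega),
      Finset.sum_range]
    rfl
  tall := h.window.1
  hx := h.window.2
  rep := h.gen

theorem comp_eq {d : ℕ} {H H' : ℤ} {f f' : ℤ[X]} (h : Poly d H f) (h' : Poly d H' f') {ρ κ : ℚ}
    (hc : ∀ i : Fin (d + 1), (cf d f i : ℚ) * ρ ^ (i : ℕ) = κ * cf d f' i) :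
    (f.map (Int.castRingHom ℚ)).comp (C ρ * Polynomial.X) = C κ * f'.map (Int.castRingHom ℚ) := by
  ext i
  rw [Polynomial.comp_C_mul_X_coeff, coeff_C_mul, coeff_map, coeff_map]
  by_cases hi : i < d + 1
  · have := hc ⟨i, hi⟩
    simpa [cf] using this
  · have h1 : f.coeff i = 0 := coeff_eq_zero_of_natDegree_lt (by rw [h.deg]; omega)
    have h2 : f'.coeff i = 0 := coeff_eq_zero_of_natDegree_lt (by rw [h'.deg]; omega)
    rw [h1, h2]
    simp

theorem cf_inj {d : ℕ} {H H' : ℤ} {f f' : ℤ[X]} (h : Poly d H f) (h' : Poly d H' f')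
    (hc : cf d f = cf d f') : f = f' := by
  ext i
  by_cases hi : i < d + 1
  · exact congrFun hc ⟨i, hi⟩
  · rw [coeff_eq_zero_of_natDegree_lt (by rw [h.deg]; omega),
      coeff_eq_zero_of_natDegree_lt (by rw [h'.deg]; omega)]

theorem scales_refl (f : ℤ[X]) (x w : ℤ) : ∃ r k : ℚ, Scales r k f x w f x w :=
  ⟨1, 1, one_ne_zero, one_ne_zero, by simp, by simp, by simp⟩

theorem comp_symm {r k : ℚ} (hr : r ≠ 0) (hk : k ≠ 0) {g g' : ℚ[X]}
    (h : g.comp (C r * Polynomial.X) = C k * g') :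
    g'.comp (C r⁻¹ * Polynomial.X) = C k⁻¹ * g := by
  have h1 : (C k * g').comp (C r⁻¹ * Polynomial.X) = g := by
    rw [← h, comp_assoc]
    have : (C r * Polynomial.X).comp (C r⁻¹ * Polynomial.X) = (Polynomial.X : ℚ[X]) := by
      rw [mul_comp, C_comp, X_comp, ← mul_assoc, ← C_mul, mul_inv_cancel₀ hr, C_1, one_mul]
    rw [this, comp_X]
  rw [mul_comp, C_comp] at h1
  rw [← h1, ← mul_assoc, ← C_mul, inv_mul_cancel₀ hk, C_1, one_mul]

theorem scales_symm {f f' : ℤ[X]} {x w x' w' : ℤ} (h : ∃ r k : ℚ, Scales r k f x w f' x' w') :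
    ∃ r k : ℚ, Scales r k f' x' w' f x w := by
  obtain ⟨r, k, hr, hk, h1, h2, h3⟩ := h
  refine ⟨r⁻¹, k⁻¹, inv_ne_zero hr, inv_ne_zero hk, ?_, ?_, comp_symm hr hk h3⟩
  · rw [h1]; field_simp
  · rw [h2]; field_simp

theorem scales_of_hlEq {d : ℕ} {H H' : ℤ} {f f' : ℤ[X]} (hf : Poly d H f) (hf' : Poly d H' f')
    {x w x' w' : ℤ} (hx : x ≠ 0) (hw : w ≠ 0) (h : HlEq (cf d f) x w (cf d f') x' w') :
    ∃ r k : ℚ, Scales r k f x w f' x' w' := by
  obtain ⟨ρ, κ, h1, h2, h3⟩ := h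
  have hxq : (x : ℚ) ≠ 0 := by exact_mod_cast hx
  have hwq : (w : ℚ) ≠ 0 := by exact_mod_cast hw
  refine ⟨ρ, κ, ?_, ?_, h1, h2, comp_eq hf hf' h3⟩
  · rintro rfl
    rw [zero_mul] at h1
    exact hxq h1
  · rintro rfl
    rw [zero_mul] at h2
    exact hwq h2

/-- the theorem for values -/
theorem values (d : ℕ) (hd : 2 ≤ d) (N E : ℕ) (ε : ℝ) (hε : 0 < ε) : ∃ (K : ℕ) (δ : ℝ), 0 < δ ∧
    ∀ X : ℕ, 2 ≤ X → ∀ T : Finset (ℤ[X] × ℤ × ℤ),
      (∀ s ∈ T, LargeValue d N E K δ X s.1 s.2.1 s.2.2) →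
      (∀ s ∈ T, ∀ t ∈ T, s ≠ t → ¬ ∃ r k : ℚ, Scales r k s.1 s.2.1 s.2.2 t.1 t.2.1 t.2.2) →
      (T.card : ℝ) ≤ (X : ℝ) ^ ε := by
  classical
  obtain ⟨K, δ, hδ, H⟩ := hl d N E ε hε
  refine ⟨K, δ, hδ, fun X hX T h1 h2 => ?_⟩
  obtain ⟨g, hg⟩ : ∃ g : ℤ[X] × ℤ × ℤ → (Fin (d + 1) → ℤ) × ℤ × ℤ, g = fun s =>
    (cf d s.1, s.2.1, s.2.2) := ⟨_, rfl⟩
  have key : ∀ s ∈ T, ∀ t ∈ T, HlEq (g s).1 (g s).2.1 (g s).2.2 (g t).1 (g t).2.1 (g t).2.2 →
      s = t := by
    intro s hs t ht hst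
    by_contra hne
    refine h2 s hs t ht hne ?_
    rw [hg] at hst
    have a1 := (h1 s hs).gen.ne
    exact scales_of_hlEq (h1 s hs).poly (h1 t ht).poly a1.1 a1.2 hst
  have hrefl : ∀ s, HlEq (g s).1 (g s).2.1 (g s).2.2 (g s).1 (g s).2.1 (g s).2.2 := fun s =>
    ⟨1, 1, (one_mul _).symm, (one_mul _).symm, fun i => by rw [one_pow, mul_one, one_mul]⟩
  have hinj : Set.InjOn g (T : Set (ℤ[X] × ℤ × ℤ)) := by
    intro s hs t ht hst
    refine key s (Finset.mem_coe.1 hs) t (Finset.mem_coe.1 ht) ?_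
    rw [hst]
    exact hrefl t
  rw [← Finset.card_image_of_injOn hinj]
  refine H X hX _ ?_ ?_
  · intro t ht
    obtain ⟨s, hs, rfl⟩ := Finset.mem_image.1 ht
    rw [hg]
    exact (h1 s hs).hlPt hd
  · intro t ht t' ht' hne
    obtain ⟨s, hs, rfl⟩ := Finset.mem_image.1 ht
    obtain ⟨s', hs', rfl⟩ := Finset.mem_image.1 ht'
    intro hcon
    exact hne (by rw [key s hs s' hs' hcon])

theorem LargePoint.value {d N E K : ℕ} {δ : ℝ} {X : ℕ} {f : ℤ[X]} {x y : ℤ}
    (h : LargePoint d N E K δ X f x y) : LargeValue d N E K δ X f x (y ^ 2) :=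
  ⟨h.poly, h.eqn, h.gen.sq, h.window⟩

theorem curve_of_scales {f f' : ℤ[X]} {x y x' y' : ℤ} (hy : y ≠ 0) (hy' : y' ≠ 0)
    (h : ∃ r k : ℚ, Scales r k f x (y ^ 2) f' x' (y' ^ 2)) :
    ∃ r s : ℚ, ScalesCurve r s f x y f' x' y' := by
  obtain ⟨r, k, hr, hk, h1, h2, h3⟩ := h
  have hyq : (y : ℚ) ≠ 0 := by exact_mod_cast hy
  have hyq' : (y' : ℚ) ≠ 0 := by exact_mod_cast hy'
  have h4 : (y : ℚ) ^ 2 = k * (y' : ℚ) ^ 2 := by exact_mod_cast h2
  have h5 : k = ((y : ℚ) / y') ^ 2 := by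
    rw [div_pow, h4]
    field_simp
  refine ⟨r, (y : ℚ) / y', hr, div_ne_zero hyq hyq', h1, by field_simp, ?_⟩
  rw [← h5]
  exact h3

/-- **Few large integral points with generated coordinates on all hyperelliptic curves.** -/
theorem result : ∀ d : ℕ, 2 ≤ d → ∀ (N E : ℕ) (ε : ℝ), 0 < ε → ∃ (K : ℕ) (δ : ℝ), 0 < δ ∧
    ∀ X : ℕ, 2 ≤ X →
      -- (1) hyperelliptic curves
      (∃ S : Finset (ℤ[X] × ℤ × ℤ), (S.card : ℝ) ≤ (X : ℝ) ^ ε ∧
        (∀ s ∈ S, LargePoint d N E K δ X s.1 s.2.1 s.2.2) ∧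
        ∀ (f : ℤ[X]) (x y : ℤ), LargePoint d N E K δ X f x y →
          ∃ t ∈ S, ∃ r s : ℚ, ScalesCurve r s f x y t.1 t.2.1 t.2.2) ∧
      -- (2) generated values of polynomials
      (∃ S : Finset (ℤ[X] × ℤ × ℤ), (S.card : ℝ) ≤ (X : ℝ) ^ ε ∧
        (∀ s ∈ S, LargeValue d N E K δ X s.1 s.2.1 s.2.2) ∧
        ∀ (f : ℤ[X]) (x w : ℤ), LargeValue d N E K δ X f x w →
          ∃ t ∈ S, ∃ r k : ℚ, Scales r k f x w t.1 t.2.1 t.2.2) := by
  classical
  intro d hd N E ε hε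
  obtain ⟨K, δ, hδ, H⟩ := values d hd N E ε hε
  refine ⟨K, δ, hδ, fun X hX => ⟨?_, ?_⟩⟩
  · obtain ⟨T, hT1, hT2, hT3⟩ := max_sep
      {s : ℤ[X] × ℤ × ℤ | LargePoint d N E K δ X s.1 s.2.1 s.2.2}
      (fun s t => ∃ r k : ℚ, Scales r k s.1 s.2.1 (s.2.2 ^ 2) t.1 t.2.1 (t.2.2 ^ 2))
      (fun s => scales_refl _ _ _) (fun s t => scales_symm) ((X : ℝ) ^ ε)
      (fun T h1 h2 => by
        obtain ⟨g, hg⟩ : ∃ g : ℤ[X] × ℤ × ℤ → ℤ[X] × ℤ × ℤ, g = fun s =>
          (s.1, s.2.1, s.2.2 ^ 2) := ⟨_, rfl⟩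
        have hinj : Set.InjOn g (T : Set (ℤ[X] × ℤ × ℤ)) := by
          intro s hs t ht hst
          by_contra hne
          refine h2 s (Finset.mem_coe.1 hs) t (Finset.mem_coe.1 ht) hne ?_
          rw [hg] at hst
          simp only [Prod.mk.injEq] at hst
          obtain ⟨e1, e2, e3⟩ := hst
          rw [e1, e2, e3]
          exact scales_refl _ _ _
        rw [← Finset.card_image_of_injOn hinj]
        refine H X hX _ ?_ ?_
        · intro t ht
          obtain ⟨s, hs, rfl⟩ := Finset.mem_image.1 ht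
          rw [hg]
          exact (h1 s hs : LargePoint _ _ _ _ _ _ _ _ _).value
        · intro t ht t' ht' hne
          obtain ⟨s, hs, rfl⟩ := Finset.mem_image.1 ht
          obtain ⟨s', hs', rfl⟩ := Finset.mem_image.1 ht'
          intro hcon
          rw [hg] at hcon
          refine h2 s hs s' hs' (fun h => hne (by rw [h])) hcon)
    refine ⟨T, hT2, hT1, fun f x y h => ?_⟩
    obtain ⟨t, ht, hst⟩ := hT3 (f, x, y) h
    exact ⟨t, ht, curve_of_scales h.gen.ne.2 (hT1 t ht : LargePoint _ _ _ _ _ _ _ _ _).gen.ne.2 hst⟩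
  · obtain ⟨T, hT1, hT2, hT3⟩ := max_sep
      {s : ℤ[X] × ℤ × ℤ | LargeValue d N E K δ X s.1 s.2.1 s.2.2}
      (fun s t => ∃ r k : ℚ, Scales r k s.1 s.2.1 s.2.2 t.1 t.2.1 t.2.2)
      (fun s => scales_refl _ _ _) (fun s t => scales_symm) ((X : ℝ) ^ ε)
      (fun T h1 h2 => H X hX T h1 h2)
    exact ⟨T, hT2, hT1, fun f x w h => hT3 (f, x, w) h⟩

end Pool.Agent.Results.MP_d88658_nt.FewGeneratorPoints
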