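import Mathlib
import Pool.Agent.Q4.Hyp.Ord

set_option autoImplicit false

/-!
# Integral points on hyperelliptic curves with polynomial ordinates near an irrational ray

`Y = F(q, x₁, …, xₙ)`, where `F` is a polynomial of degree `D`, at integral points near the ray
spanned by `(1, θ₁, …, θₙ)`, for algebraic numbers `θᵢ`. All hyperelliptic curves `y² = f(x)` with
`deg f = d`, `d ∣ 2 D`, and with an integral point `(X, Y)`: `h(X) ≤ C₁ h(f) + C₂`.

The proof: if the coefficients of `f` are small, the root `X` of `f(X) = Y²`, suitably shifted and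
scaled, is close to a `d`-th root of a multiple of `F(q, x)²`; the subspace theorem (with small
varying coefficients) shows that `X` is the value at `(q, x)` of a polynomial with small
coefficients; but the curve has no polynomial solutions.
-/

namespace Pool.Agent.Results.MP_d88658_nt.OrdinatesNearRays

open MvPolynomial

/-- the point `(q, x₁, …, xₙ)`; the variable `none` is the one of `q` -/
def point {n : ℕ} (q : ℕ) (x : Fin n → ℤ) : Option (Fin n) → ℤ := fun o => o.elim (q : ℤ) x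

/-- the integral points `(q, x₁, …, xₙ)` near the ray spanned by `(1, θ₁, …, θₙ)`: `q = u w` where `u`
is composed of primes of `S` and `w ≤ q ^ η`, and `|θₛ q - xₛ| ≤ q ^ η` for all `s` -/
def NearRay {n : ℕ} (S : Finset ℕ) (θ : Fin n → ℝ) (η : ℝ) (q : ℕ) (x : Fin n → ℤ) : Prop :=
  (∃ u w : ℕ, q = u * w ∧ u.primeFactors ⊆ S ∧ (w : ℝ) ≤ (q : ℝ) ^ η) ∧
  ∀ s, |θ s * q - x s| ≤ (q : ℝ) ^ η

/-- the value at `(1, θ)` of the homogeneous part of degree `m` -/
noncomputable def atInfinity {n : ℕ} (θ : Fin n → ℝ) (m : ℕ) (F : MvPolynomial (Option (Fin n)) ℤ) : ℝ :=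
  aeval (fun o : Option (Fin n) => (o.elim 1 θ : ℝ)) (homogeneousComponent m F)

/-- the largest absolute value of a coefficient -/
noncomputable def maxCoeff (f : Polynomial ℤ) : ℕ := f.support.sup (fun i => (f.coeff i).natAbs)

lemma le_maxCoeff (f : Polynomial ℤ) (i : ℕ) : |((f.coeff i : ℤ) : ℝ)| ≤ maxCoeff f := by
  by_cases hi : i ∈ f.support
  · have h1 : (f.coeff i).natAbs ≤ maxCoeff f :=
      Finset.le_sup (f := fun i => (f.coeff i).natAbs) hi
    have h2 : (((f.coeff i).natAbs : ℕ) : ℝ) ≤ maxCoeff f := by exact_mod_cast h1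
    rwa [Nat.cast_natAbs, Int.cast_abs] at h2
  · rw [Polynomial.notMem_support_iff.1 hi]
    simp

/-- only finitely many points near the ray are small -/
lemma small_q {n : ℕ} (θ : Fin n → ℝ) (η : ℝ) (F : MvPolynomial (Option (Fin n)) ℤ) (N : ℕ) :
    ∃ K : ℝ, 0 ≤ K ∧ ∀ q < N, ∀ x : Fin n → ℤ, (∀ s, |θ s * q - x s| ≤ (q : ℝ) ^ η) →
      Real.log (max |((eval (point q x) F : ℤ) : ℝ)| 1) ≤ K := by
  have hfin : ∀ q : ℕ, {x : Fin n → ℤ | ∀ s, |θ s * q - x s| ≤ (q : ℝ) ^ η}.Finite := by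
    intro q
    have h1 : {x : Fin n → ℤ | ∀ s, |θ s * q - x s| ≤ (q : ℝ) ^ η}
        ⊆ {x : Fin n → ℤ | ∀ s, x s ∈ Set.Icc ⌊θ s * q - (q : ℝ) ^ η⌋ ⌈θ s * q + (q : ℝ) ^ η⌉} := by
      intro x hx s
      have h2 := abs_le.1 (hx s)
      refine ⟨?_, ?_⟩
      · have h3 : ((⌊θ s * q - (q : ℝ) ^ η⌋ : ℤ) : ℝ) ≤ x s :=
          (Int.floor_le _).trans (by linarith [h2.2])
        exact_mod_cast h3
      · have h3 : ((x s : ℤ) : ℝ) ≤ (⌈θ s * q + (q : ℝ) ^ η⌉ : ℤ) :=
          le_trans (by linarith [h2.1]) (Int.le_ceil _)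
        exact_mod_cast h3
    exact (Set.Finite.pi' fun s => Set.finite_Icc _ _).subset h1
  choose K hK using fun q : ℕ => ((hfin q).image
    (fun x => Real.log (max |((eval (point q x) F : ℤ) : ℝ)| 1))).bddAbove
  have hsum : ∀ q < N, K q ≤ ∑ q ∈ Finset.range N, |K q| := fun q hq =>
    (le_abs_self _).trans (Finset.single_le_sum (f := fun q => |K q|) (fun i _ => abs_nonneg _)
      (Finset.mem_range.2 hq))
  refine ⟨∑ q ∈ Finset.range N, |K q|, Finset.sum_nonneg fun i _ => abs_nonneg _,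
    fun q hq x hx => ?_⟩
  exact (hK q ⟨x, hx, rfl⟩).trans (hsum q hq)

/-- the abscissa is bounded by the ordinate and the coefficients -/
lemma X_le (f : Polynomial ℤ) (hf : 1 ≤ f.natDegree) (X Y : ℤ) (h : Y ^ 2 = f.eval X) :
    Real.log (max |(X : ℝ)| 1) ≤ Real.log (max (maxCoeff f : ℝ) 1) + Real.log (2 * f.natDegree)
      + Real.log 2 + 2 * Real.log (max |(Y : ℝ)| 1) := by
  have hd : (1 : ℝ) ≤ f.natDegree := by exact_mod_cast hf
  have hM : 0 ≤ Real.log (max (maxCoeff f : ℝ) 1) := Real.log_nonneg (le_max_right _ _)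
  have hY : 0 ≤ Real.log (max |(Y : ℝ)| 1) := Real.log_nonneg (le_max_right _ _)
  have h2d : 0 ≤ Real.log (2 * (f.natDegree : ℝ)) := Real.log_nonneg (by linarith)
  have h2 : 0 ≤ Real.log 2 := Real.log_nonneg (by norm_num)
  by_cases hx : |(X : ℝ)| < 1
  · rw [max_eq_right hx.le, Real.log_one]
    positivity
  rw [not_lt] at hx
  rw [max_eq_left hx]
  have hxp : 0 < |(X : ℝ)| := by linarith
  have hsum : ∑ i ∈ Finset.range (f.natDegree + 1), ((f.coeff i : ℤ) : ℝ) * (X : ℝ) ^ i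
      = (Y : ℝ) ^ 2 := by
    rw [Polynomial.eval_eq_sum_range] at h
    have h7 := congrArg (fun z : ℤ => (z : ℝ)) h
    push_cast at h7
    exact h7.symm
  have hlc : f.coeff f.natDegree ≠ 0 := by
    intro h0
    have h1 : f = 0 := Polynomial.leadingCoeff_eq_zero.1 h0
    rw [h1, Polynomial.natDegree_zero] at hf
    omega
  rcases Pool.Agent.Q4.Hyp.root_size (d := f.natDegree) (by omega)
    (fun i => ((f.coeff i : ℤ) : ℝ)) (by
      have := Int.one_le_abs hlc
      exact_mod_cast this) (K := (maxCoeff f : ℝ)) (by positivity) (fun i _ => le_maxCoeff f i) hx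
      hsum with h6 | h6
  · have h7 : |(X : ℝ)| ≤ (2 * (f.natDegree : ℝ)) * max (maxCoeff f : ℝ) 1 :=
      h6.trans (mul_le_mul_of_nonneg_left (le_max_left _ _) (by positivity))
    have h8 := Real.log_le_log hxp h7
    rw [Real.log_mul (by positivity) (by positivity)] at h8
    linarith
  · have h7 : |(X : ℝ)| ≤ 2 * (max |(Y : ℝ)| 1) ^ 2 := by
      refine (le_self_pow₀ hx (by omega)).trans (h6.trans ?_)
      rw [abs_pow]
      exact mul_le_mul_of_nonneg_left (pow_le_pow_left₀ (abs_nonneg _) (le_max_left _ _) 2)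
        (by norm_num)
    have h8 := Real.log_le_log hxp h7
    rw [Real.log_mul (by positivity) (by positivity), Real.log_pow] at h8
    push_cast at h8
    linarith

/-- Let `1, θ₁, …, θₙ` be real algebraic numbers, linearly independent over `ℚ`, and `S` a finite set
of primes. Let `F ∈ ℤ[X₀, …, Xₙ]` have degree at most `D > 0`, and suppose that the homogeneous part
of degree `D` of `F` does not vanish at `(1, θ)`. Let `d ≥ 3` be a divisor of `2 D`, and `E ≥ 0`.
There are `C₁`, `C₂` and `η > 0` such that `h(X) ≤ C₁ h(f) + C₂` for all integral points `x` near the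
ray, all `f ∈ ℤ[T]` of degree `d` without repeated roots whose leading coefficient is `e h ^ d` with
`|e| ≤ E`, and all integral points `(X, Y)` of `y² = f(x)` with `Y = F(x)`. -/
theorem result (n : ℕ) (θ : Fin n → ℝ) (halg : ∀ s, IsAlgebraic ℚ (θ s))
    (hind : LinearIndependent ℚ (fun o : Option (Fin n) => (o.elim 1 θ : ℝ))) (S : Finset ℕ)
    (F : MvPolynomial (Option (Fin n)) ℤ) (D : ℕ) (hD : 0 < D)
    (hF : F.totalDegree ≤ D) (htop : atInfinity θ D F ≠ 0) (d : ℕ) (hd : 3 ≤ d)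
    (hpar : d ∣ 2 * D) (E : ℕ) :
    ∃ C₁ C₂ η : ℝ, 0 < η ∧ ∀ q x, NearRay S θ η q x → ∀ f : Polynomial ℤ,
      f.natDegree = d → (f.map (Int.castRingHom ℚ)).Separable →
      (∃ e h : ℤ, |e| ≤ E ∧ f.leadingCoeff = e * h ^ d) →
      ∀ X Y : ℤ, Y = eval (point q x) F → Y ^ 2 = f.eval X →
      Real.log (max |(X : ℝ)| 1) ≤ C₁ * Real.log (max (maxCoeff f : ℝ) 1) + C₂ := by
  classical
  have hf : ∀ x : ℕ, x.primeFactors ⊆ S → x.primeFactors ⊆ S.filter Nat.Prime := fun x hx p hp =>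
    Finset.mem_filter.2 ⟨hx hp, Nat.prime_of_mem_primeFactors hp⟩
  set S' := S.filter Nat.Prime with hS'
  have hS : ∀ p ∈ S', p.Prime := fun p hp => (Finset.mem_filter.1 hp).2
  obtain ⟨η1, N1, hη1, h1⟩ := Pool.Agent.Q4.Hyp.ord_main S' hS halg hind hF hD htop hd hpar E
  obtain ⟨η2, N2, hη2, h2⟩ := Pool.Agent.Q4.Hyp.val_main S' (θ := θ) hF
  obtain ⟨K, hK0, hK⟩ := small_q θ (min η1 η2) F (max (max N1 N2) 1)
  have hη : 0 < min η1 η2 := lt_min hη1 hη2
  refine ⟨1 + 2 * ((D + 1) / η1), Real.log (2 * d) + Real.log 2 + 2 * K, min η1 η2, hη,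
    fun q x hx f hfd hsep he X Y hY hy => ?_⟩
  have hX := X_le f (by omega) X Y hy
  rw [hfd] at hX
  subst hY
  have hM : 0 ≤ Real.log (max (maxCoeff f : ℝ) 1) := Real.log_nonneg (le_max_right _ _)
  have hMη : 0 ≤ (D + 1) / η1 * Real.log (max (maxCoeff f : ℝ) 1) := by positivity
  rcases lt_or_ge q (max (max N1 N2) 1) with hq | hq
  · have h3 := hK q hq x hx.2
    linarith
  · have hq1 : 1 ≤ q := (le_max_right _ _).trans hq
    have hx' : Pool.Agent.Q4.Tube.Near S' θ (min η1 η2) q x := by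
      obtain ⟨u, w, g1, g2, g3⟩ := hx.1
      exact ⟨⟨u, w, g1, hf _ g2, g3⟩, hx.2⟩
    have hqr : (1 : ℝ) ≤ q := by exact_mod_cast hq1
    obtain ⟨e, h, he, hlc⟩ := he
    obtain ⟨i, hi⟩ := h1 q ((le_max_left _ _).trans ((le_max_left _ _).trans hq)) x
      (Pool.Agent.Q4.Hall.Near.mono (min_le_left _ _) hq1 hx') f hfd hsep e h he hlc X hy
    have h3 := h2 q ((le_max_right _ _).trans ((le_max_left _ _).trans hq)) x
      (Pool.Agent.Q4.Hall.Near.mono (min_le_right _ _) hq1 hx')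
    have h4 : (q : ℝ) ^ η1 ≤ max (maxCoeff f : ℝ) 1 :=
      (hi.le.trans (le_maxCoeff f i)).trans (le_max_left _ _)
    have h5 := Real.log_le_log (by positivity) h4
    rw [Real.log_rpow (by linarith)] at h5
    have h6 : max |((eval (point q x) F : ℤ) : ℝ)| 1 ≤ (q : ℝ) ^ (D + 1 : ℝ) :=
      max_le h3 (Real.one_le_rpow hqr (by positivity))
    have h7 := Real.log_le_log (lt_of_lt_of_le one_pos (le_max_right _ _)) h6
    rw [Real.log_rpow (by linarith)] at h7
    have h8 : (D + 1) * Real.log q ≤ (D + 1) / η1 * Real.log (max (maxCoeff f : ℝ) 1) := by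
      rw [div_mul_eq_mul_div, le_div_iff₀ hη1]
      have h9 := mul_le_mul_of_nonneg_left h5 (show (0 : ℝ) ≤ D + 1 by positivity)
      linarith
    linarith

end Pool.Agent.Results.MP_d88658_nt.OrdinatesNearRays
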